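import Pool.Agent.Y382.DN.Stm

/-!
DN-SIM: nondeterministic decision diagrams are decomposable circuits.
-/

set_option autoImplicit false

namespace Pool.Agent.Y941.DN

open Pool.Agent.Y622.NG Pool.Agent.H607R2.BW Pool.Agent.TH454.BW Pool.Agent.Y382.DN

/-- a scope and a function -/
abbrev Ent (n : ℕ) : Type := Finset (Fin n) × ((Fin n → Bool) → Bool)

/-- lists of gates, the last one in front -/
inductive Bld {n : ℕ} : List (Ent n) → Prop
  | nil : Bld []
  | leaf (L : List (Ent n)) (e : Ent n) : Bld L → e.1.card ≤ 1 →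
      (∀ x y, (∀ k ∈ e.1, x k = y k) → e.2 x = e.2 y) → Bld (e :: L)
  | and (L : List (Ent n)) (a b : Ent n) : Bld L → a ∈ L → b ∈ L → Disjoint a.1 b.1 →
      Bld ((a.1 ∪ b.1, fun x => a.2 x && b.2 x) :: L)
  | or (L : List (Ent n)) (a b : Ent n) : Bld L → a ∈ L → b ∈ L →
      Bld ((a.1 ∪ b.1, fun x => a.2 x || b.2 x) :: L)

/-- gates with one more index -/
def up {s : ℕ} : Gate s → Gate (s + 1)
  | .leaf => .leaf
  | .and a b => .and a.castSucc b.castSucc
  | .or a b => .or a.castSucc b.castSucc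

theorem up_leaf {s : ℕ} {g : Gate s} (h : up g = .leaf) : g = .leaf := by
  cases g with
  | leaf => rfl
  | and a b => simp [up] at h
  | or a b => simp [up] at h

theorem up_and {s : ℕ} {g : Gate s} {a b : Fin (s + 1)} (h : up g = .and a b) :
    ∃ a' b' : Fin s, g = .and a' b' ∧ a = a'.castSucc ∧ b = b'.castSucc := by
  cases g with
  | leaf => simp [up] at h
  | and a' b' =>
    simp only [up, Gate.and.injEq] at h
    exact ⟨a', b', rfl, h.1.symm, h.2.symm⟩
  | or a' b' => simp [up] at h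

theorem up_or {s : ℕ} {g : Gate s} {a b : Fin (s + 1)} (h : up g = .or a b) :
    ∃ a' b' : Fin s, g = .or a' b' ∧ a = a'.castSucc ∧ b = b'.castSucc := by
  cases g with
  | leaf => simp [up] at h
  | and a' b' => simp [up] at h
  | or a' b' =>
    simp only [up, Gate.or.injEq] at h
    exact ⟨a', b', rfl, h.1.symm, h.2.symm⟩

theorem snoc {n s : ℕ} (C : Dnnf n s 1) (g : Gate s) (sc : Finset (Fin n))
    (v : (Fin n → Bool) → Bool)
    (h1 : g = .leaf → sc.card ≤ 1 ∧ ∀ x y, (∀ k ∈ sc, x k = y k) → v x = v y)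
    (h2 : ∀ a b, g = .and a b → sc = C.scope a ∪ C.scope b ∧
      Disjoint (C.scope a) (C.scope b) ∧ ∀ x, v x = (C.val a x && C.val b x))
    (h3 : ∀ a b, g = .or a b → sc = C.scope a ∪ C.scope b ∧
      ∀ x, v x = (C.val a x || C.val b x)) :
    ∃ C' : Dnnf n (s + 1) 1, (∀ i : Fin s, C'.scope i.castSucc = C.scope i ∧
      C'.val i.castSucc = C.val i) ∧ C'.scope (Fin.last s) = sc ∧ C'.val (Fin.last s) = v := by
  refine ⟨{
    kind := Fin.lastCases (motive := fun _ => Gate (s + 1)) (up g) (fun i => up (C.kind i))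
    scope := Fin.lastCases (motive := fun _ => Finset (Fin n)) sc C.scope
    val := Fin.lastCases (motive := fun _ => (Fin n → Bool) → Bool) v C.val
    leaf_ok := ?_
    and_ok := ?_
    or_ok := ?_ }, fun i => ⟨?_, ?_⟩, ?_, ?_⟩
  · intro i
    refine Fin.lastCases ?_ (fun i => ?_) i
    · simp only [Fin.lastCases_last]
      exact fun h => h1 (up_leaf h)
    · simp only [Fin.lastCases_castSucc]
      exact fun h => C.leaf_ok i (up_leaf h)
  · intro i
    refine Fin.lastCases ?_ (fun i => ?_) i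
    · intro a b h
      simp only [Fin.lastCases_last] at h
      obtain ⟨a', b', e, rfl, rfl⟩ := up_and h
      simp only [Fin.lastCases_last, Fin.lastCases_castSucc]
      exact ⟨Fin.castSucc_lt_last a', Fin.castSucc_lt_last b', h2 a' b' e⟩
    · intro a b h
      simp only [Fin.lastCases_castSucc] at h
      obtain ⟨a', b', e, rfl, rfl⟩ := up_and h
      simp only [Fin.lastCases_castSucc]
      obtain ⟨k1, k2, k3⟩ := C.and_ok i a' b' e
      exact ⟨Fin.castSucc_lt_castSucc_iff.2 k1, Fin.castSucc_lt_castSucc_iff.2 k2, k3⟩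
  · intro i
    refine Fin.lastCases ?_ (fun i => ?_) i
    · intro a b h
      simp only [Fin.lastCases_last] at h
      obtain ⟨a', b', e, rfl, rfl⟩ := up_or h
      simp only [Fin.lastCases_last, Fin.lastCases_castSucc]
      exact ⟨Fin.castSucc_lt_last a', Fin.castSucc_lt_last b', h3 a' b' e⟩
    · intro a b h
      simp only [Fin.lastCases_castSucc] at h
      obtain ⟨a', b', e, rfl, rfl⟩ := up_or h
      simp only [Fin.lastCases_castSucc]
      obtain ⟨k1, k2, k3⟩ := C.or_ok i a' b' e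
      exact ⟨Fin.castSucc_lt_castSucc_iff.2 k1, Fin.castSucc_lt_castSucc_iff.2 k2, k3⟩
  · simp only [Fin.lastCases_castSucc]
  · simp only [Fin.lastCases_castSucc]
  · simp only [Fin.lastCases_last]
  · simp only [Fin.lastCases_last]

theorem Bld.dnnf {n : ℕ} {L : List (Ent n)} (h : Bld L) :
    ∃ C : Dnnf n L.length 1, ∀ e ∈ L, ∃ i, C.scope i = e.1 ∧ C.val i = e.2 := by
  have key : ∀ (L : List (Ent n)) (e : Ent n) (C : Dnnf n L.length 1)
      (_ : ∀ e ∈ L, ∃ i, C.scope i = e.1 ∧ C.val i = e.2)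
      (_ : ∃ C' : Dnnf n (L.length + 1) 1, (∀ i : Fin L.length, C'.scope i.castSucc = C.scope i ∧
        C'.val i.castSucc = C.val i) ∧ C'.scope (Fin.last _) = e.1 ∧ C'.val (Fin.last _) = e.2),
      ∃ C : Dnnf n (e :: L).length 1, ∀ e' ∈ e :: L, ∃ i, C.scope i = e'.1 ∧ C.val i = e'.2 := by
    intro L e C hC ⟨C', k1, k2, k3⟩
    refine ⟨C', fun e' he' => ?_⟩
    rcases List.mem_cons.1 he' with rfl | he'
    · exact ⟨Fin.last _, k2, k3⟩
    · obtain ⟨i, hi1, hi2⟩ := hC e' he'
      exact ⟨i.castSucc, (k1 i).1.trans hi1, (k1 i).2.trans hi2⟩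
  induction h with
  | nil =>
    refine ⟨⟨fun i => i.elim0, fun i => i.elim0, fun i => i.elim0, fun i => i.elim0,
      fun i => i.elim0, fun i => i.elim0⟩, fun e he => ?_⟩
    simp at he
  | leaf L e _ hc hv ih =>
    obtain ⟨C, hC⟩ := ih
    exact key L e C hC (snoc C .leaf e.1 e.2 (fun _ => ⟨hc, hv⟩) (fun a b h => by simp at h)
      (fun a b h => by simp at h))
  | and L a b _ ha hb hd ih =>
    obtain ⟨C, hC⟩ := ih
    obtain ⟨i, hi1, hi2⟩ := hC a ha
    obtain ⟨j, hj1, hj2⟩ := hC b hb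
    refine key L _ C hC (snoc C (.and i j) _ _ (fun h => by simp at h) (fun a' b' h => ?_)
      (fun a b h => by simp at h))
    simp only [Gate.and.injEq] at h
    obtain ⟨rfl, rfl⟩ := h
    rw [hi1, hj1, hi2, hj2]
    exact ⟨rfl, hd, fun _ => rfl⟩
  | or L a b _ ha hb ih =>
    obtain ⟨C, hC⟩ := ih
    obtain ⟨i, hi1, hi2⟩ := hC a ha
    obtain ⟨j, hj1, hj2⟩ := hC b hb
    refine key L _ C hC (snoc C (.or i j) _ _ (fun h => by simp at h)
      (fun a b h => by simp at h) (fun a' b' h => ?_))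
    simp only [Gate.or.injEq] at h
    obtain ⟨rfl, rfl⟩ := h
    rw [hi1, hj1, hi2, hj2]
    exact ⟨rfl, fun _ => rfl⟩

/-- constant -/
def ec (n : ℕ) (b : Bool) : Ent n := (∅, fun _ => b)

/-- literal -/
def el {n : ℕ} (i : Fin n) (b : Bool) : Ent n := ({i}, fun x => x i == b)

/-- the leaves -/
def base (n : ℕ) : List (Ent n) :=
  ec n true :: ec n false :: (List.finRange n).flatMap fun i => [el i true, el i false]

theorem bld_base (n : ℕ) : Bld (base n) := by
  have h : ∀ l : List (Fin n), Bld (l.flatMap fun i => [el i true, el i false]) := by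
    intro l
    induction l with
    | nil => exact Bld.nil
    | cons i l ih =>
      have hl : ∀ b, (el i b).1.card ≤ 1 ∧
          ∀ x y : Fin n → Bool, (∀ k ∈ (el i b).1, x k = y k) → (el i b).2 x = (el i b).2 y := by
        intro b
        refine ⟨by simp [el], fun x y hxy => ?_⟩
        have := hxy i (by simp [el])
        simp [el, this]
      exact Bld.leaf _ _ (Bld.leaf _ _ ih (hl false).1 (hl false).2) (hl true).1 (hl true).2
  have hc : ∀ b, (ec n b).1.card ≤ 1 ∧
      ∀ x y : Fin n → Bool, (∀ k ∈ (ec n b).1, x k = y k) → (ec n b).2 x = (ec n b).2 y :=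
    fun b => ⟨by simp [ec], fun _ _ _ => rfl⟩
  exact Bld.leaf _ _ (Bld.leaf _ _ (h _) (hc false).1 (hc false).2) (hc true).1 (hc true).2

theorem length_base (n : ℕ) : (base n).length = 2 * n + 2 := by
  unfold base
  rw [List.length_cons, List.length_cons, List.length_flatMap]
  simp
  ring

theorem mem_ec (n : ℕ) (b : Bool) : ec n b ∈ base n := by
  cases b <;> simp [base]

theorem mem_el {n : ℕ} (i : Fin n) (b : Bool) : el i b ∈ base n := by
  unfold base
  refine List.mem_cons_of_mem _ (List.mem_cons_of_mem _ (List.mem_flatMap.2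
    ⟨i, List.mem_finRange i, ?_⟩))
  cases b <;> simp

section
variable {n : ℕ} (ord : Fin n ≃ Fin n) {σ : Type} (T : ℕ → Finset (σ × Bool × σ)) (F : Set σ)

/-- the word of an input -/
def wd (x : Fin n → Bool) : List Bool := List.ofFn fun p => x (ord p)

/-- accepting from the state `u` at the level `p` -/
def NN (p : ℕ) (u : σ) (x : Fin n → Bool) : Prop := ∃ s' ∈ F, Path T p u ((wd ord x).drop p) s'

theorem NN_last (u : σ) (x : Fin n → Bool) : NN ord T F n u x ↔ u ∈ F := by
  unfold NN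
  have h : (wd ord x).drop n = [] := List.drop_eq_nil_of_le (by simp [wd])
  rw [h]
  simp only [Pool.Agent.TH454.BW.Path]
  constructor
  · rintro ⟨s', h1, rfl⟩
    exact h1
  · intro h1
    exact ⟨u, h1, rfl⟩

theorem NN_step (p : Fin n) (u : σ) (x : Fin n → Bool) :
    NN ord T F p u x ↔ ∃ u', (u, x (ord p), u') ∈ T p ∧ NN ord T F (p + 1) u' x := by
  unfold NN
  have h : (wd ord x).drop p = x (ord p) :: (wd ord x).drop (p + 1) := by
    rw [List.drop_eq_getElem_cons (by simp [wd])]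
    simp [wd]
  rw [h]
  simp only [Pool.Agent.TH454.BW.Path]
  constructor
  · rintro ⟨s', h1, u', h2, h3⟩
    exact ⟨u', h2, s', h1, h3⟩
  · rintro ⟨u', h2, s', h1, h3⟩
    exact ⟨s', h1, u', h2, h3⟩

/-- the scope condition -/
def Sc (p : ℕ) (s : Finset (Fin n)) : Prop := ∀ i ∈ s, ∃ q : Fin n, p ≤ q ∧ ord q = i

theorem level (p : Fin n) (L : List (Ent n)) (hL : Bld L) (hb : ∀ e ∈ base n, e ∈ L)
    (hN : ∀ u, ∃ e ∈ L, Sc ord (p + 1) e.1 ∧ ∀ x, e.2 x = true ↔ NN ord T F (p + 1) u x)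
    (S : List (σ × Bool × σ)) : ∃ L' : List (Ent n), Bld L' ∧ (∀ e ∈ L, e ∈ L') ∧
      L'.length = L.length + 2 * S.length ∧
      ∀ u, ∃ e ∈ L', Sc ord p e.1 ∧ ∀ x, e.2 x = true ↔
        ∃ b ∈ S, b.1 = u ∧ x (ord p) = b.2.1 ∧ NN ord T F (p + 1) b.2.2 x := by
  induction S with
  | nil =>
    refine ⟨L, hL, fun e he => he, by simp, fun u => ⟨ec n false, hb _ (mem_ec n false), ?_, ?_⟩⟩
    · intro i hi
      simp [ec] at hi
    · intro x
      simp [ec]
  | cons b S ih =>
    obtain ⟨L', h1, h2, h3, h4⟩ := ih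
    obtain ⟨e, he, hsc, hev⟩ := hN b.2.2
    obtain ⟨f, hf, hfs, hfv⟩ := h4 b.1
    have hdis : Disjoint (el (ord p) b.2.1).1 e.1 := by
      unfold el
      rw [Finset.disjoint_singleton_left]
      intro hi
      obtain ⟨q, hq, e1⟩ := hsc _ hi
      have e2 := ord.injective e1
      rw [e2] at hq
      omega
    set g : Ent n := ((el (ord p) b.2.1).1 ∪ e.1, fun x => (el (ord p) b.2.1).2 x && e.2 x)
      with hg
    have k1 : Bld (g :: L') := Bld.and L' (el (ord p) b.2.1) e h1
      (h2 _ (hb _ (mem_el _ _))) (h2 e he) hdis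
    have k2 : Bld ((f.1 ∪ g.1, fun x => f.2 x || g.2 x) :: g :: L') :=
      Bld.or (g :: L') f g k1 (List.mem_cons_of_mem _ hf) List.mem_cons_self
    have hgv : ∀ x, g.2 x = true ↔ x (ord p) = b.2.1 ∧ NN ord T F (p + 1) b.2.2 x := by
      intro x
      rw [← hev]
      simp [hg, el]
    have hgs : Sc ord p g.1 := by
      intro i hi
      simp only [hg, el, Finset.mem_union, Finset.mem_singleton] at hi
      rcases hi with rfl | hi
      · exact ⟨p, le_rfl, rfl⟩
      · obtain ⟨q, hq, e1⟩ := hsc _ hi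
        exact ⟨q, by omega, e1⟩
    refine ⟨_, k2, fun e he => List.mem_cons_of_mem _ (List.mem_cons_of_mem _ (h2 e he)), ?_,
      fun u => ?_⟩
    · simp only [List.length_cons]
      omega
    · by_cases hu : b.1 = u
      · subst hu
        refine ⟨_, List.mem_cons_self, ?_, fun x => ?_⟩
        · intro i hi
          rcases Finset.mem_union.1 hi with hi | hi
          · exact hfs i hi
          · exact hgs i hi
        · rw [Bool.or_eq_true, hfv, hgv]
          constructor
          · rintro (⟨b', h5, h6⟩ | h5)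
            · exact ⟨b', List.mem_cons_of_mem _ h5, h6⟩
            · exact ⟨b, List.mem_cons_self, rfl, h5⟩
          · rintro ⟨b', h5, h6⟩
            rcases List.mem_cons.1 h5 with rfl | h5
            · exact Or.inr h6.2
            · exact Or.inl ⟨b', h5, h6⟩
      · obtain ⟨f', hf', hfs', hfv'⟩ := h4 u
        refine ⟨f', List.mem_cons_of_mem _ (List.mem_cons_of_mem _ hf'), hfs', fun x => ?_⟩
        rw [hfv']
        constructor
        · rintro ⟨b', h5, h6⟩
          exact ⟨b', List.mem_cons_of_mem _ h5, h6⟩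
        · rintro ⟨b', h5, h6⟩
          rcases List.mem_cons.1 h5 with rfl | h5
          · exact absurd h6.1 hu
          · exact ⟨b', h5, h6⟩

theorem levels {β : ℕ} (hT : ∀ p, (T p).card ≤ β) (j : ℕ) : ∀ p : ℕ, p + j = n →
    ∃ L : List (Ent n), Bld L ∧ (∀ e ∈ base n, e ∈ L) ∧ L.length ≤ 2 * n + 2 + 2 * β * j ∧
      ∀ u, ∃ e ∈ L, Sc ord p e.1 ∧ ∀ x, e.2 x = true ↔ NN ord T F p u x := by
  induction j with
  | zero =>
    intro p hp
    have hp' : p = n := by omega
    subst hp'
    refine ⟨base p, bld_base p, fun e he => he, by rw [length_base]; omega, fun u => ?_⟩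
    by_cases hu : u ∈ F
    · refine ⟨ec p true, mem_ec p true, fun i hi => by simp [ec] at hi, fun x => ?_⟩
      rw [NN_last]
      simp [ec, hu]
    · refine ⟨ec p false, mem_ec p false, fun i hi => by simp [ec] at hi, fun x => ?_⟩
      rw [NN_last]
      simp [ec, hu]
  | succ j ih =>
    intro p hp
    obtain ⟨L, h1, h2, h3, h4⟩ := ih (p + 1) (by omega)
    obtain ⟨L', k1, k2, k3, k4⟩ := level ord T F ⟨p, by omega⟩ L h1 h2 h4 (T p).toList
    refine ⟨L', k1, fun e he => k2 e (h2 e he), ?_, fun u => ?_⟩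
    · have h5 := hT p
      rw [k3, Finset.length_toList]
      have h6 : 2 * β * (j + 1) = 2 * β * j + 2 * β := by ring
      omega
    · obtain ⟨e, he, hs, hv⟩ := k4 u
      refine ⟨e, he, hs, fun x => ?_⟩
      rw [hv, NN_step ord T F ⟨p, by omega⟩]
      constructor
      · rintro ⟨⟨b1, b2, b3⟩, h5, rfl, h6, h7⟩
        simp only at h6
        refine ⟨b3, ?_, h7⟩
        rw [h6]
        exact Finset.mem_toList.1 h5
      · rintro ⟨u', h5, h6⟩
        exact ⟨_, Finset.mem_toList.2 h5, rfl, rfl, h6⟩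

end

theorem t_SIM : S_SIM := by
  intro n β ord σ T s₀ F hT
  obtain ⟨L, h1, -, h3, h4⟩ := levels ord T F hT n 0 (Nat.zero_add n)
  obtain ⟨C, hC⟩ := h1.dnnf
  obtain ⟨e, he, -, hv⟩ := h4 s₀
  obtain ⟨i, -, hi⟩ := hC e he
  refine ⟨L.length, C, i, h3.trans ?_, fun x => ?_⟩
  · nlinarith
  · rw [hi, hv]
    unfold NN wd
    rw [List.drop_zero]

end Pool.Agent.Y941.DN
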